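import Mathlib

namespace Pool.Agent.Results.MP_f1a2b2_co.Paper

/-- `y` is self-shuffling: `ℕ` splits into two infinite sets along each of which one reads `y`. -/
def SelfShuffling {A : Type} (y : ℕ → A) : Prop :=
  ∃ I : Set ℕ, I.Infinite ∧ Iᶜ.Infinite ∧ (∀ k, y (Nat.nth (· ∈ I) k) = y k) ∧
    ∀ k, y (Nat.nth (· ∈ Iᶜ) k) = y k

/-- parity letter together with the paperfolding letter -/
def pf (n : ℕ) : Bool × Bool :=
  (decide (n % 2 = 1), decide (n / 2 ^ (padicValNat 2 n + 1) % 2 = 1))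

/-- the rigidity property -/
def Rigid {A : Type} (y : ℕ → A) : Prop :=
  ∀ t p c, ∃ r < 2 ^ t, y (p + r) ≠ y (p + 2 ^ t * (2 * c + 1) + r)

lemma val_eq (s m : ℕ) : padicValNat 2 (2 ^ s * (2 * m + 1)) = s := by
  rw [padicValNat.mul (by positivity) (by omega), padicValNat.prime_pow,
    padicValNat.eq_zero_of_not_dvd (by omega), add_zero]

lemma snd_eq (s m : ℕ) : (pf (2 ^ s * (2 * m + 1))).2 = decide (m % 2 = 1) := by
  unfold pf
  rw [val_eq, pow_succ, Nat.mul_div_mul_left _ _ (by positivity), show (2 * m + 1) / 2 = m by omega]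

lemma rigid_pf : Rigid pf := by
  intro t p c
  cases t with
  | zero =>
    refine ⟨0, by simp, fun h => ?_⟩
    have := congrArg Prod.fst h
    simp only [pf, decide_eq_decide] at this
    omega
  | succ s =>
    obtain ⟨m, r, hr, e⟩ : ∃ m r, r < 2 ^ (s + 1) ∧ p + r = 2 ^ s * (2 * m + 1) := by
      have h1 := Nat.div_add_mod (p + 2 ^ s - 1) (2 ^ (s + 1))
      have h2 := Nat.mod_lt (p + 2 ^ s - 1) (show 0 < 2 ^ (s + 1) by positivity)
      have h3 : 0 < 2 ^ s := by positivity
      set q := (p + 2 ^ s - 1) / 2 ^ (s + 1)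
      set u := (p + 2 ^ s - 1) % 2 ^ (s + 1)
      refine ⟨q, 2 ^ s * (2 * q + 1) - p, ?_, ?_⟩
      · rw [pow_succ] at *
        have : 2 ^ s * (2 * q + 1) = 2 ^ s * 2 * q + 2 ^ s := by ring
        omega
      · rw [pow_succ] at *
        have : 2 ^ s * (2 * q + 1) = 2 ^ s * 2 * q + 2 ^ s := by ring
        omega
    refine ⟨r, hr, fun h => ?_⟩
    have e2 : p + 2 ^ (s + 1) * (2 * c + 1) + r = 2 ^ s * (2 * (m + 2 * c + 1) + 1) := by
      rw [add_right_comm, e]; ring
    have := congrArg Prod.snd h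
    rw [e, e2, snd_eq, snd_eq, decide_eq_decide] at this
    omega

lemma count_block (P : ℕ → Prop) [DecidablePred P] (p r : ℕ) (h : ∀ i < r, P (p + i)) :
    Nat.count P (p + r) = Nat.count P p + r := by
  induction r with
  | zero => rfl
  | succ r ih =>
    rw [← add_assoc, Nat.count_succ, ih fun i hi => h i (by omega), if_pos (h r (by omega))]
    omega

lemma count_compl (I : Set ℕ) [DecidablePred (· ∈ I)] [DecidablePred (· ∈ Iᶜ)] (n : ℕ) :
    Nat.count (· ∈ I) n + Nat.count (· ∈ Iᶜ) n = n := by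
  induction n with
  | zero => rfl
  | succ n ih =>
    rw [Nat.count_succ, Nat.count_succ]
    by_cases h : n ∈ I
    · rw [if_pos h, if_neg (fun h' => h' h)]; omega
    · rw [if_neg h, if_pos (show n ∈ Iᶜ from h)]; omega

lemma not_self {A : Type} (y : ℕ → A) (hy : Rigid y) : ¬ SelfShuffling y := by
  classical
  rintro ⟨I, hI, hJ, h1, h2⟩
  have key : ∀ (J : Set ℕ), (∀ k, y (Nat.nth (· ∈ J) k) = y k) → ∀ t N,
      2 ^ (t + 1) ∣ Nat.count (· ∈ Jᶜ) N → (∀ i < 2 ^ t, N + i ∈ Jᶜ) →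
      (∀ i < 2 ^ t, N + 2 ^ t + i ∈ J) → False := by
    intro J hJ t N ⟨c, hc⟩ b1 b2
    have e1 := count_block (· ∈ Jᶜ) N (2 ^ t) b1
    have e2 := count_compl J (N + 2 ^ t)
    obtain ⟨r, hr, hne⟩ := hy t (Nat.count (· ∈ J) (N + 2 ^ t)) c
    apply hne
    have e3 := count_block (· ∈ J) (N + 2 ^ t) r fun i hi => b2 i (by omega)
    have e4 : Nat.count (· ∈ J) (N + 2 ^ t) + 2 ^ t * (2 * c + 1) = N + 2 ^ t := by
      have : 2 ^ t * (2 * c + 1) = 2 ^ (t + 1) * c + 2 ^ t := by ring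
      omega
    rw [e4, ← e3, ← hJ, Nat.nth_count (p := (· ∈ J)) (b2 r hr)]
  have blocks : ∀ t m, (∀ i < 2 ^ t, 2 ^ t * m + i ∈ I) ∨ (∀ i < 2 ^ t, 2 ^ t * m + i ∈ Iᶜ) := by
    intro t
    induction t with
    | zero =>
      intro m
      by_cases h : m ∈ I
      · left; intro i hi; rw [show i = 0 by simpa using hi]; simpa using h
      · right; intro i hi; rw [show i = 0 by simpa using hi]; simpa using h
    | succ t ih =>
      have step : ∀ m, 2 ^ (t + 1) ∣ Nat.count (· ∈ I) (2 ^ (t + 1) * m) →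
          (∀ i < 2 ^ (t + 1), 2 ^ (t + 1) * m + i ∈ I) ∨
          (∀ i < 2 ^ (t + 1), 2 ^ (t + 1) * m + i ∈ Iᶜ) := by
        intro m hd
        have hd' : 2 ^ (t + 1) ∣ Nat.count (· ∈ Iᶜ) (2 ^ (t + 1) * m) := by
          have := count_compl I (2 ^ (t + 1) * m)
          exact (Nat.dvd_add_right hd).1 (by rw [this]; exact Dvd.intro m rfl)
        have a1 := ih (2 * m)
        have a2 := ih (2 * m + 1)
        rw [show 2 ^ t * (2 * m) = 2 ^ (t + 1) * m by ring] at a1
        rw [show 2 ^ t * (2 * m + 1) = 2 ^ (t + 1) * m + 2 ^ t by ring] at a2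
        have glue : ∀ J : Set ℕ, (∀ i < 2 ^ t, 2 ^ (t + 1) * m + i ∈ J) →
            (∀ i < 2 ^ t, 2 ^ (t + 1) * m + 2 ^ t + i ∈ J) →
            ∀ i < 2 ^ (t + 1), 2 ^ (t + 1) * m + i ∈ J := by
          intro J c1 c2 i hi
          by_cases h : i < 2 ^ t
          · exact c1 i h
          · have := c2 (i - 2 ^ t) (by rw [pow_succ] at hi; omega)
            rwa [show 2 ^ (t + 1) * m + 2 ^ t + (i - 2 ^ t) = 2 ^ (t + 1) * m + i by omega] at this
        rcases a1 with a1 | a1 <;> rcases a2 with a2 | a2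
        · exact Or.inl (glue _ a1 a2)
        · exact (key Iᶜ h2 t _ (by simpa using hd) (by simpa using a1) a2).elim
        · exact (key I h1 t _ hd' a1 a2).elim
        · exact Or.inr (glue _ a1 a2)
      have dv : ∀ m, 2 ^ (t + 1) ∣ Nat.count (· ∈ I) (2 ^ (t + 1) * m) := by
        intro m
        induction m with
        | zero => simp
        | succ m ihm =>
          rcases step m ihm with a | a
          · rw [mul_add, mul_one, count_block (· ∈ I) _ _ a]
            exact Dvd.dvd.add ihm dvd_rfl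
          · have e1 := count_block (· ∈ Iᶜ) _ _ a
            have e2 := count_compl I (2 ^ (t + 1) * m)
            have e3 := count_compl I (2 ^ (t + 1) * m + 2 ^ (t + 1))
            rw [mul_add, mul_one,
              show Nat.count (· ∈ I) (2 ^ (t + 1) * m + 2 ^ (t + 1)) =
                Nat.count (· ∈ I) (2 ^ (t + 1) * m) by omega]
            exact ihm
      exact fun m => step m (dv m)
  obtain ⟨a, ha⟩ := hI.nonempty
  obtain ⟨b, hb⟩ := hJ.nonempty
  have l1 : a < 2 ^ (a + b) := lt_of_le_of_lt (Nat.le_add_right a b) Nat.lt_two_pow_self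
  have l2 : b < 2 ^ (a + b) := lt_of_le_of_lt (Nat.le_add_left b a) Nat.lt_two_pow_self
  rcases blocks (a + b) 0 with h | h
  · exact hb (by simpa using h b l2)
  · exact (by simpa using h a l1 : a ∉ I) ha

theorem result : ∃ x : ℕ → Bool × Bool,
    ∀ y ∈ closure (Set.range fun n : ℕ => fun i : ℕ => x (n + i)), ¬ SelfShuffling y := by
  refine ⟨pf, fun y hy => not_self y ?_⟩
  intro t p c
  by_contra hc
  push Not at hc
  have ho : IsOpen {z : ℕ → Bool × Bool | ∀ r ∈ Finset.range (2 ^ t),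
      z (p + r) = z (p + 2 ^ t * (2 * c + 1) + r)} := by
    simp only [Set.setOf_forall]
    refine isOpen_biInter_finset fun r _ => ?_
    exact IsOpen.preimage (f := fun z : ℕ → Bool × Bool =>
      (z (p + r), z (p + 2 ^ t * (2 * c + 1) + r))) (by fun_prop)
      (isOpen_discrete {q : (Bool × Bool) × (Bool × Bool) | q.1 = q.2})
  obtain ⟨z, hz, n, rfl⟩ := mem_closure_iff.1 hy _ ho fun r hr => hc r (Finset.mem_range.1 hr)
  obtain ⟨r, hr, hne⟩ := rigid_pf t (n + p) c
  apply hne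
  have := hz r (Finset.mem_range.2 hr)
  simpa only [add_assoc] using this

end Pool.Agent.Results.MP_f1a2b2_co.Paper
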